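import Pool.Agent.MWGX.StmtsA

set_option autoImplicit false

/-!
Row NTH of block MWGX (MP_23468a_al): number theory.
-/

namespace Pool.Agent.MWGX.H8

open Pool.Agent.MWGX

theorem nth : NthStmt := by
  intro n q r δ c hn hqr hco hδ hc
  have hδ0 : 0 < δ := Nat.pos_of_dvd_of_pos hδ (by omega)
  have hg : Nat.Coprime (Nat.gcd c δ) r := by
    apply Nat.Coprime.symm
    apply Nat.coprime_of_dvd
    intro p hp hpr hpg
    have h1 : p ∣ Nat.gcd r δ := Nat.dvd_gcd hpr (hpg.trans (Nat.gcd_dvd_right c δ))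
    have h2 : p ∣ c := hpg.trans (Nat.gcd_dvd_left c δ)
    have h3 : c ≡ 1 [MOD p] := hc.of_dvd h1
    have h4 : 1 % p = 0 := by
      rw [← h3]
      exact Nat.mod_eq_zero_of_dvd h2
    rw [Nat.mod_eq_of_lt hp.one_lt] at h4
    omega
  have hgq : Nat.gcd c δ ∣ q := by
    apply Nat.Coprime.dvd_of_dvd_mul_right hg
    rw [hqr]
    exact (Nat.gcd_dvd_right c δ).trans hδ
  obtain ⟨t, ht⟩ := hgq
  have hB := Nat.gcd_eq_gcd_ab c δ
  set A := Nat.gcdA c δ
  set B := Nat.gcdB c δ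
  have hδz : (0 : ℤ) < (δ : ℤ) := by exact_mod_cast hδ0
  have hnn : 0 ≤ (A * t) % (δ : ℤ) := Int.emod_nonneg _ (ne_of_gt hδz)
  refine ⟨((A * t) % (δ : ℤ) + δ).toNat, ?_, ?_⟩
  · omega
  · rw [← Int.natCast_modEq_iff, Int.modEq_iff_dvd]
    rw [Nat.cast_mul, Int.toNat_of_nonneg (by omega)]
    have h5 : (q : ℤ) = (c * A + δ * B) * t := by
      rw [ht, Nat.cast_mul, hB]
    have h6 : (A * t) % (δ : ℤ) = A * t - δ * ((A * t) / δ) := by
      have := Int.emod_add_mul_ediv (A * t) (δ : ℤ)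
      linarith
    refine ⟨B * t + c * ((A * t) / δ) - c, ?_⟩
    rw [h5, h6]
    ring

end Pool.Agent.MWGX.H8
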